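import Pool.Agent.Helper2_Pak.StmtsK

set_option autoImplicit false

/-!
# PAK1 module K1: tiles in the same column
-/

namespace Pool.Agent.Helper2_Pak.H50

open Pool.Agent.Helper2_Pack (Motion)

/-! ### profiles -/

theorem bump_nonneg (t e : ℝ) : 0 ≤ bump t e := le_max_left _ _

theorem dent_nonneg (t e : ℝ) : 0 ≤ dent t e := le_max_left _ _

theorem pit_nonneg (a b e : ℝ) : 0 ≤ pit a b e := le_max_left _ _

theorem slit_nonneg (t d e : ℝ) : 0 ≤ slit t d e := le_max_left _ _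

theorem chamf_nonneg (t w e : ℝ) : 0 ≤ chamf t w e := le_max_left _ _

theorem bump_le {t : ℝ} (ht : 0 < t) (e : ℝ) : bump t e ≤ t ^ 3 := by
  refine max_le (by positivity) ?_
  linarith [abs_nonneg e]

theorem bump_zero {t e : ℝ} (h : t ^ 3 ≤ |e|) : bump t e = 0 :=
  max_eq_left (by linarith)

theorem bump_neg (t e : ℝ) : bump t (-e) = bump t e := by
  unfold bump
  rw [abs_neg]

theorem dent_neg (t e : ℝ) : dent t (-e) = dent t e := by
  unfold dent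
  rw [abs_neg]

theorem tpow {t : ℝ} (h0 : 0 < t) (h1 : t ≤ 1 / 2 ^ 60) :
    0 < t ^ 3 ∧ 0 < t ^ 4 ∧ t ^ 3 ≤ 1 / 2 ^ 60 ∧ t ^ 4 ≤ t ^ 3 / 2 ^ 60 := by
  have h2 : t ≤ 1 := h1.trans (by norm_num)
  refine ⟨by positivity, by positivity, ?_, ?_⟩
  · calc t ^ 3 ≤ t ^ 1 := pow_le_pow_of_le_one h0.le h2 (by norm_num)
      _ = t := pow_one t
      _ ≤ _ := h1
  · calc t ^ 4 = t ^ 3 * t := by ring
      _ ≤ t ^ 3 * (1 / 2 ^ 60) := mul_le_mul_of_nonneg_left h1 (by positivity)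
      _ = _ := by ring

/-- one of the two bumps vanishes -/
theorem bump_or {t : ℝ} (h0 : 0 < t) (h1 : t ≤ 1 / 2 ^ 60) (x : ℝ) :
    bump t (x + 1 / 4) = 0 ∨ bump t (x - 1 / 4) = 0 := by
  obtain ⟨h3, h4, h5, h6⟩ := tpow h0 h1
  rcases le_total 0 x with h | h
  · left
    apply bump_zero
    rw [abs_of_nonneg (by linarith only [h])]
    have : (1 : ℝ) / 2 ^ 60 ≤ 1 / 4 := by norm_num
    linarith only [h5, h]
  · right
    apply bump_zero
    rw [abs_of_nonpos (by linarith)]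
    have : (1 : ℝ) / 2 ^ 60 ≤ 1 / 4 := by norm_num
    linarith

theorem bump_two {t : ℝ} (h0 : 0 < t) (h1 : t ≤ 1 / 2 ^ 60) (x : ℝ) :
    bump t (x + 1 / 4) + bump t (x - 1 / 4) ≤ t ^ 3 := by
  rcases bump_or h0 h1 x with h | h
  · rw [h, zero_add]
    exact bump_le h0 _
  · rw [h, add_zero]
    exact bump_le h0 _

theorem bump_dent {t e D : ℝ} (h0 : 0 < t) (h1 : t ≤ 1 / 2 ^ 60) (hD : |D| ≤ t / 4) :
    bump t e ≤ dent t (e - D) := by
  obtain ⟨h3, h4, h5, h6⟩ := tpow h0 h1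
  by_cases h : t ^ 3 ≤ |e|
  · rw [bump_zero h]
    exact dent_nonneg _ _
  · push Not at h
    refine (bump_le h0 e).trans (le_trans ?_ (le_max_right _ _))
    have h7 : |e - D| ≤ |e| + |D| := abs_sub _ _
    have h8 : (1 : ℝ) / 2 ^ 60 ≤ 1 / 256 := by norm_num
    have h9 : 1 / 2 ≤ 1 - 64 * |e - D| := by linarith only [h1, hD, h5, h, h7]
    nlinarith only [h1, hD, h3, h5, h, h7]

theorem pit_ge {a b e : ℝ} (h1 : 0 ≤ a + b / 64) (h2 : 0 ≤ a - b / 64) (he : |e| ≤ 1 / 128) :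
    a + b * e ≤ pit a b e := by
  obtain ⟨he1, he2⟩ := abs_le.1 he
  refine le_trans ?_ (le_max_right _ _)
  refine le_min le_rfl (le_min ?_ ?_)
  · linarith only [mul_nonneg h1 (by linarith : 0 ≤ 1 - 128 * e)]
  · nlinarith [mul_nonneg h2 (by linarith : 0 ≤ 1 + 128 * e)]

theorem pit_fun {t e : ℝ} (h0 : 0 < t) (h1 : t ≤ 1 / 2 ^ 60) (he : |e| ≤ 1 / 128) :
    t ^ 3 - t ^ 4 - t ^ 4 * e ≤ pit (t ^ 3 - t ^ 4) (-t ^ 4) e := by
  obtain ⟨h3, h4, h5, h6⟩ := tpow h0 h1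
  have h7 := pit_ge (a := t ^ 3 - t ^ 4) (b := -t ^ 4) (e := e) (by linarith only [h4, h6]) (by linarith) he
  linarith only [h7]

theorem bump_pit_add {t e D : ℝ} (h0 : 0 < t) (h1 : t ≤ 1 / 2 ^ 60) (hD : |D| ≤ t / 4) :
    bump t e ≤ pit (t ^ 3 - t ^ 4) (-t ^ 4) (-(e - D)) + (t ^ 4 + t ^ 4 * D) := by
  obtain ⟨h3, h4, h5, h6⟩ := tpow h0 h1
  obtain ⟨hD1, hD2⟩ := abs_le.1 hD
  have h8 : (1 : ℝ) / 2 ^ 60 ≤ 1 / 256 := by norm_num
  have hp : 0 ≤ t ^ 4 + t ^ 4 * D := by nlinarith only [h1, h4, hD1]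
  by_cases h : t ^ 3 ≤ |e|
  · rw [bump_zero h]
    linarith only [hp, pit_nonneg (t ^ 3 - t ^ 4) (-t ^ 4) (-(e - D))]
  · push Not at h
    have h7 : |e - D| ≤ |e| + |D| := abs_sub _ _
    have h9 := pit_fun (e := -(e - D)) h0 h1 (by rw [abs_neg]; linarith)
    have h10 : bump t e = t ^ 3 - |e| := max_eq_right (by linarith only [h])
    have h11 : -|e| - t ^ 4 * e ≤ 0 := by
      have h12 : t ^ 4 * (-e) ≤ 1 * |e| := by
        have h13 : -e ≤ |e| := neg_le_abs e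
        have h14 : t ^ 4 * (-e) ≤ t ^ 4 * |e| := mul_le_mul_of_nonneg_left h13 h4.le
        have h15 : t ^ 4 * |e| ≤ 1 * |e| := mul_le_mul_of_nonneg_right (by linarith) (abs_nonneg e)
        linarith only [h14, h15]
      linarith only [h12]
    rw [h10]
    linarith only [h9, h11]

theorem bump_pit_sub {t e D : ℝ} (h0 : 0 < t) (h1 : t ≤ 1 / 2 ^ 60) (hD : |D| ≤ t / 4) :
    bump t e ≤ pit (t ^ 3 - t ^ 4) (-t ^ 4) (e + D) + (t ^ 4 + t ^ 4 * D) := by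
  have h := bump_pit_add (e := -e) h0 h1 hD
  rw [bump_neg, show -(-e - D) = e + D by ring] at h
  exact h

theorem hi_le (t x : ℝ) : hi t x ≤ hh t + bump t (x + 1 / 4) + bump t (x - 1 / 4) := by
  unfold hi
  linarith [chamf_nonneg t (1 / 2) x]

theorem hi_neg_le (t x : ℝ) : hi t (-x) ≤ hh t + bump t (x + 1 / 4) + bump t (x - 1 / 4) := by
  have h := hi_le t (-x)
  rw [show -x + 1 / 4 = -(x - 1 / 4) by ring, show -x - 1 / 4 = -(x + 1 / 4) by ring,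
    bump_neg, bump_neg] at h
  linarith only [h]

theorem lo_le (t x : ℝ) : - lo t x ≤ hh t - dent t (x + 1 / 4) - dent t (x - 1 / 4) := by
  unfold lo
  linarith [chamf_nonneg t (1 / 2) x]

theorem lo_neg_le (t x : ℝ) : - lo t (-x) ≤ hh t - dent t (x + 1 / 4) - dent t (x - 1 / 4) := by
  have h := lo_le t (-x)
  rw [show -x + 1 / 4 = -(x - 1 / 4) by ring, show -x - 1 / 4 = -(x + 1 / 4) by ring,
    dent_neg, dent_neg] at h
  linarith only [h]

theorem rt_le (t x : ℝ) : rt t x ≤ 1 / 2 := by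
  unfold rt
  linarith [chamf_nonneg t (hh t) x, pit_nonneg (t ^ 3 / 2) (-t ^ 3) (x + 5 / 16),
    pit_nonneg (t ^ 3 / 2) (t ^ 3) (x + 3 / 16), pit_nonneg (t ^ 3 / 2) (t ^ 3) (x - 3 / 16),
    pit_nonneg (t ^ 3 / 2) (-t ^ 3) (x - 5 / 16)]

theorem lf_le (t x : ℝ) : - lf t x ≤ 1 / 2 - pit (t ^ 3 - t ^ 4) (-t ^ 4) (x + 1 / 4)
    - pit (t ^ 3 - t ^ 4) (-t ^ 4) (x - 1 / 4) := by
  unfold lf
  linarith only [chamf_nonneg t (hh t) x, slit_nonneg t (1 - t ^ 3 / 4) (x + 1 / 16),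
    slit_nonneg t (1 - 3 * t ^ 3 / 4) (x - 1 / 16)]

/-! ### tiles -/

theorem top0 {t : ℝ} {v ζ : ℂ} (h : ζ ∈ tile t (mk 0 v)) : ζ.im - v.im ≤ hi t (ζ.re - v.re) := by
  obtain ⟨z, hz, rfl⟩ := h
  have := hz.2.1
  simpa [mk, Motion.app] using this

theorem bot0 {t : ℝ} {v ζ : ℂ} (h : ζ ∈ tile t (mk 0 v)) :
    v.im - ζ.im ≤ - lo t (ζ.re - v.re) := by
  obtain ⟨z, hz, rfl⟩ := h
  have := hz.1
  simpa [mk, Motion.app] using this

theorem top1 {t : ℝ} {v ζ : ℂ} (h : ζ ∈ tile t (mk 1 v)) :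
    ζ.im - v.im ≤ rt t (-(ζ.re - v.re)) := by
  obtain ⟨z, hz, rfl⟩ := h
  have := hz.2.2.2
  simpa [mk, Motion.app] using this

theorem bot1 {t : ℝ} {v ζ : ℂ} (h : ζ ∈ tile t (mk 1 v)) :
    v.im - ζ.im ≤ - lf t (-(ζ.re - v.re)) := by
  obtain ⟨z, hz, rfl⟩ := h
  have := hz.2.2.1
  simpa [mk, Motion.app] using this

theorem top2 {t : ℝ} {v ζ : ℂ} (h : ζ ∈ tile t (mk 2 v)) :
    ζ.im - v.im ≤ - lo t (-(ζ.re - v.re)) := by
  obtain ⟨z, hz, rfl⟩ := h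
  have := hz.1
  simpa [mk, Motion.app] using this

theorem bot2 {t : ℝ} {v ζ : ℂ} (h : ζ ∈ tile t (mk 2 v)) :
    v.im - ζ.im ≤ hi t (-(ζ.re - v.re)) := by
  obtain ⟨z, hz, rfl⟩ := h
  have := hz.2.1
  simpa [mk, Motion.app] using this

theorem top3 {t : ℝ} {v ζ : ℂ} (h : ζ ∈ tile t (mk 3 v)) :
    ζ.im - v.im ≤ - lf t (ζ.re - v.re) := by
  obtain ⟨z, hz, rfl⟩ := h
  have := hz.2.2.1
  simpa [mk, Motion.app, Complex.I_pow_three] using this

theorem bot3 {t : ℝ} {v ζ : ℂ} (h : ζ ∈ tile t (mk 3 v)) :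
    v.im - ζ.im ≤ rt t (ζ.re - v.re) := by
  obtain ⟨z, hz, rfl⟩ := h
  have := hz.2.2.2
  simpa [mk, Motion.app, Complex.I_pow_three] using this

/-- sets which are separated by a graph have disjoint interiors -/
theorem disj_graph {A B : Set ℂ} (f : ℝ → ℝ) (hA : ∀ ζ ∈ A, ζ.im ≤ f ζ.re)
    (hB : ∀ ζ ∈ B, f ζ.re ≤ ζ.im) : Disjoint (interior A) (interior B) := by
  rw [Set.disjoint_left]
  intro ζ h1 h2
  obtain ⟨ε, hε, hb⟩ := Metric.isOpen_iff.1 isOpen_interior ζ h1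
  have h3 : ζ + (((ε / 2 : ℝ) : ℂ) * Complex.I) ∈ Metric.ball ζ ε := by
    rw [Metric.mem_ball, dist_eq_norm]
    simp only [add_sub_cancel_left, norm_mul, Complex.norm_I, mul_one, Complex.norm_real]
    rw [Real.norm_eq_abs, abs_of_pos (by positivity)]
    linarith
  have h4 := hA _ (interior_subset (hb h3))
  have h5 := hB _ (interior_subset h2)
  simp at h4
  linarith

theorem sep {t : ℝ} {k k' : ℕ} {v v' : ℂ} (F G : ℝ → ℝ)
    (hA : ∀ ζ ∈ tile t (mk k v), ζ.im - v.im ≤ F (ζ.re - v.re))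
    (hB : ∀ ζ ∈ tile t (mk k' v'), v'.im - ζ.im ≤ G (ζ.re - v'.re))
    (h : ∀ ξ, F ξ + G (ξ - (v'.re - v.re)) ≤ v'.im - v.im) :
    Disjoint (interior (tile t (mk k v))) (interior (tile t (mk k' v'))) := by
  refine disj_graph (fun x => v.im + F (x - v.re)) (fun ζ hζ => ?_) (fun ζ hζ => ?_)
  · have := hA ζ hζ
    linarith
  · have h1 := hB ζ hζ
    have h2 := h (ζ.re - v.re)
    rw [show ζ.re - v.re - (v'.re - v.re) = ζ.re - v'.re by ring] at h2
    linarith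

theorem lo_top (t x : ℝ) : - lo t x ≤ hh t := by
  linarith [lo_le t x, dent_nonneg t (x + 1 / 4), dent_nonneg t (x - 1 / 4)]

theorem lf_top (t x : ℝ) : - lf t x ≤ 1 / 2 := by
  linarith [lf_le t x, pit_nonneg (t ^ 3 - t ^ 4) (-t ^ 4) (x + 1 / 4),
    pit_nonneg (t ^ 3 - t ^ 4) (-t ^ 4) (x - 1 / 4)]

theorem k1 : K1Stmt := by
  intro t k k' v v' h0 h1 hD h
  set D := v'.re - v.re with hDdef
  rcases h with ⟨hm, h⟩ | ⟨hm, h⟩ | ⟨hm, h⟩ | ⟨hm, h⟩
  · simp only [List.mem_cons, Prod.mk.injEq, List.not_mem_nil, or_false] at hm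
    rcases hm with ⟨rfl, rfl⟩ | ⟨rfl, rfl⟩ | ⟨rfl, rfl⟩ | ⟨rfl, rfl⟩ | ⟨rfl, rfl⟩ | ⟨rfl, rfl⟩ |
      ⟨rfl, rfl⟩ | ⟨rfl, rfl⟩ | ⟨rfl, rfl⟩ | ⟨rfl, rfl⟩ | ⟨rfl, rfl⟩ <;>
      simp only [HY] at h <;> norm_num at h
    · -- 0 0
      refine sep (hi t) (fun y => - lo t y) (fun _ => top0) (fun _ => bot0) fun ξ => ?_
      rw [← hDdef]
      have a1 := hi_le t ξ
      have a2 := lo_le t (ξ - D)
      have a3 := bump_dent (e := ξ + 1 / 4) h0 h1 hD
      have a4 := bump_dent (e := ξ - 1 / 4) h0 h1 hD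
      rw [show ξ + 1 / 4 - D = ξ - D + 1 / 4 by ring] at a3
      rw [show ξ - 1 / 4 - D = ξ - D - 1 / 4 by ring] at a4
      linarith only [h, a1, a2, a3, a4]
    · -- 1 0
      refine sep (fun x => rt t (-x)) (fun y => - lo t y) (fun _ => top1) (fun _ => bot0)
        fun ξ => ?_
      linarith [rt_le t (-ξ), lo_top t (ξ - (v'.re - v.re))]
    · -- 2 2
      refine sep (fun x => - lo t (-x)) (fun y => hi t (-y)) (fun _ => top2) (fun _ => bot2)
        fun ξ => ?_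
      rw [← hDdef]
      have a1 := hi_neg_le t (ξ - D)
      have a2 := lo_neg_le t ξ
      have a3 := bump_dent (e := ξ - D + 1 / 4) (D := -D) h0 h1 (by rwa [abs_neg])
      have a4 := bump_dent (e := ξ - D - 1 / 4) (D := -D) h0 h1 (by rwa [abs_neg])
      rw [show ξ - D + 1 / 4 - -D = ξ + 1 / 4 by ring] at a3
      rw [show ξ - D - 1 / 4 - -D = ξ - 1 / 4 by ring] at a4
      linarith
    · -- 2 3
      refine sep (fun x => - lo t (-x)) (rt t) (fun _ => top2) (fun _ => bot3) fun ξ => ?_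
      linarith [lo_top t (-ξ), rt_le t (ξ - (v'.re - v.re))]
    · -- 1 1
      refine sep (fun x => rt t (-x)) (fun y => - lf t (-y)) (fun _ => top1) (fun _ => bot1)
        fun ξ => ?_
      linarith [rt_le t (-ξ), lf_top t (-(ξ - (v'.re - v.re)))]
    · -- 1 3
      refine sep (fun x => rt t (-x)) (rt t) (fun _ => top1) (fun _ => bot3) fun ξ => ?_
      linarith [rt_le t (-ξ), rt_le t (ξ - (v'.re - v.re))]
    · -- 2 0
      refine sep (fun x => - lo t (-x)) (fun y => - lo t y) (fun _ => top2) (fun _ => bot0)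
        fun ξ => ?_
      linarith [lo_top t (-ξ), lo_top t (ξ - (v'.re - v.re))]
    · -- 2 1
      refine sep (fun x => - lo t (-x)) (fun y => - lf t (-y)) (fun _ => top2) (fun _ => bot1)
        fun ξ => ?_
      linarith [lo_top t (-ξ), lf_top t (-(ξ - (v'.re - v.re)))]
    · -- 3 0
      refine sep (fun x => - lf t x) (fun y => - lo t y) (fun _ => top3) (fun _ => bot0)
        fun ξ => ?_
      linarith only [h, lf_top t ξ, lo_top t (ξ - (v'.re - v.re))]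
    · -- 3 1
      refine sep (fun x => - lf t x) (fun y => - lf t (-y)) (fun _ => top3) (fun _ => bot1)
        fun ξ => ?_
      linarith [lf_top t ξ, lf_top t (-(ξ - (v'.re - v.re)))]
    · -- 3 3
      refine sep (fun x => - lf t x) (rt t) (fun _ => top3) (fun _ => bot3) fun ξ => ?_
      linarith [lf_top t ξ, rt_le t (ξ - (v'.re - v.re))]
  · simp only [List.mem_cons, Prod.mk.injEq, List.not_mem_nil, or_false] at hm
    rcases hm with ⟨rfl, rfl⟩ | ⟨rfl, rfl⟩ <;> simp only [HY] at h <;> norm_num at h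
    · -- 0 3
      refine sep (hi t) (rt t) (fun _ => top0) (fun _ => bot3) fun ξ => ?_
      linarith only [h, hi_le t ξ, bump_two h0 h1 ξ, rt_le t (ξ - (v'.re - v.re))]
    · -- 1 2
      refine sep (fun x => rt t (-x)) (fun y => hi t (-y)) (fun _ => top1) (fun _ => bot2)
        fun ξ => ?_
      linarith [rt_le t (-ξ), hi_neg_le t (ξ - (v'.re - v.re)),
        bump_two h0 h1 (ξ - (v'.re - v.re))]
  · simp only [Prod.mk.injEq] at hm
    obtain ⟨rfl, rfl⟩ := hm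
    simp only [HY] at h
    norm_num at h
    refine sep (hi t) (fun y => - lf t (-y)) (fun _ => top0) (fun _ => bot1) fun ξ => ?_
    rw [← hDdef]
    have a1 := hi_le t ξ
    have a2 := lf_le t (-(ξ - D))
    have a3 := bump_pit_add (e := ξ + 1 / 4) h0 h1 hD
    have a4 := bump_pit_add (e := ξ - 1 / 4) h0 h1 hD
    rw [show -(ξ + 1 / 4 - D) = -(ξ - D) - 1 / 4 by ring] at a3
    rw [show -(ξ - 1 / 4 - D) = -(ξ - D) + 1 / 4 by ring] at a4
    have a5 := pit_nonneg (t ^ 3 - t ^ 4) (-t ^ 4) (-(ξ - D) - 1 / 4)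
    have a6 := pit_nonneg (t ^ 3 - t ^ 4) (-t ^ 4) (-(ξ - D) + 1 / 4)
    rcases bump_or h0 h1 ξ with h2 | h2
    · linarith only [h, a1, a2, a4, a5, h2]
    · linarith only [h, a1, a2, a3, a6, h2]
  · simp only [Prod.mk.injEq] at hm
    obtain ⟨rfl, rfl⟩ := hm
    simp only [HY] at h
    norm_num at h
    refine sep (fun x => - lf t x) (fun y => hi t (-y)) (fun _ => top3) (fun _ => bot2)
      fun ξ => ?_
    have hD' : v.re - v'.re = - D := by rw [hDdef]; ring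
    rw [hD'] at h
    rw [← hDdef]
    have a1 := hi_neg_le t (ξ - D)
    have a2 := lf_le t ξ
    have a3 := bump_pit_sub (e := ξ - D + 1 / 4) h0 h1 hD
    have a4 := bump_pit_sub (e := ξ - D - 1 / 4) h0 h1 hD
    rw [show ξ - D + 1 / 4 + D = ξ + 1 / 4 by ring] at a3
    rw [show ξ - D - 1 / 4 + D = ξ - 1 / 4 by ring] at a4
    have a5 := pit_nonneg (t ^ 3 - t ^ 4) (-t ^ 4) (ξ + 1 / 4)
    have a6 := pit_nonneg (t ^ 3 - t ^ 4) (-t ^ 4) (ξ - 1 / 4)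
    rcases bump_or h0 h1 (ξ - D) with h2 | h2
    · linarith
    · linarith

end Pool.Agent.Helper2_Pak.H50
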